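import Pool.Agent.K4H5.PC.Tw

/-!
# Frey's height conjecture for almost all principally polarised abelian threefolds, and for all
quadratic twists of the Jacobians of almost all plane curves of every degree

Frey asks for constants `κ`, `c`, depending only on the number field `K` and on `g`, such that
`h_F(A) ≤ κ log N_A + c` for all abelian varieties `A` over `K` of dimension `g`.

Let `D ≥ 3` and `g = (D - 1)(D - 2) / 2`, and consider all plane curves of degree `D` over `K`, with
the affine equation `f(x, y) = ∑_{i + j ≤ D} c_{ij} x^i y^j = 0` with integral coefficients, ordered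
by the size of the coefficients. For 100 % of them the curve is smooth, and the inequality of Frey
holds, with the same constants, for ALL quadratic twists `J_e`, `e ∈ K^×`, of its Jacobian `J` (the
twists by the character of `K(√e)` and the automorphism `-1`).

For `D = 4`: a principally polarised abelian threefold over `K` which over the algebraic closure is
the Jacobian of a non-hyperelliptic curve is a quadratic twist `J_e` of the Jacobian of a plane
quartic over `K` (Serre). So this is Frey's conjecture for 100 % of the principally polarised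
abelian threefolds over `K`.

* `twistHeight g c e`: the metric part is the `L²` norm of `∧_{i + j ≤ D - 3} x^i y^j dx / f_y`
  (`vol`, up to a factor depending on `D` only). Let `W` be the plane model over the integers `O` of
  the completion at a place `v`, `Λ = ⊕ O x^i y^j dx / f_y = H⁰(W, ω)`, let `L = K_v(√e)`,
  `e = e' u²` with `v(e')` equal to `0` or `1`, and `τ` the automorphism of `L`. The homomorphism
  `y ↦ y - τ y` from the Weil restriction of `Pic⁰(W_{O_L})` to the Néron model of `J_e` shows that
  the differentials of the Néron model of `J_e` are contained in `(2 √e')⁻¹ Λ`. So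
  `h_F(J_e) ≤ twistHeight g c e + c(D)`.
* `twistCond g c e`: at the places `v` not dividing `2` where the plane curve is smooth or has
  exactly one node modulo `v` (`Smooth`, `OneNode`), `J` has good reduction or semistable reduction
  of toric rank one. If `v(e)` is odd then the exponent of the conductor of `J_e` is `2 g` (the
  inertia group acts on the Tate module by a unipotent representation times a ramified quadratic
  tame character), and if `v(e)` is even it is the one of `J`, `0` or `1`. So `twistCond g c e`
  divides the conductor of `J_e`.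
-/

set_option autoImplicit false

open NumberField Polynomial Pool.Agent.K4H5.PC

namespace Pool.Agent.Results.MP_6babc4_nt.AbelianThreefolds

open Pool.Agent.K4H5.HF (box card_box)

open Classical in
/-- For every `δ < 1` there are `κ` and `C` such that the inequality of Frey with the slope `κ` and
the constant `C` holds for all quadratic twists of the Jacobians of all plane curves of degree `D`
over `K`, with the exception of a proportion `C H ^ (-δ)` of the polynomials whose coefficients
have coordinates at most `H`. -/
theorem result (K : Type) [Field K] [NumberField K] (D g : ℕ) (hD : 3 ≤ D)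
    (hg : 2 * g = (D - 1) * (D - 2)) (δ : ℝ) (hδ : δ < 1) :
    ∃ κ C : ℝ, ∀ H : ℕ, 1 ≤ H →
      (((Fintype.piFinset fun _ : Idx D => box K H).filter fun c =>
        ¬ FreyTwists g κ C c).card : ℝ) ≤
          C * (H : ℝ) ^ (-δ) * ((Fintype.piFinset fun _ : Idx D => box K H).card : ℝ) := by
  obtain ⟨m, rfl⟩ : ∃ m, D = m + 2 := ⟨D - 2, by omega⟩
  have hcard : Fintype.card (Jdx (m + 1 + 1)) = g := by
    have h1 := card_jdx m
    simp only [Nat.add_sub_cancel] at hg
    have h3 : m + 2 - 1 = m + 1 := rfl
    rw [h3] at hg
    have h2 : Fintype.card (Jdx (m + 2)) = g := by omega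
    exact h2
  have hg1 : 1 ≤ g := by
    by_contra hcon
    have h0 : g = 0 := by omega
    subst h0
    have h1 : (m + 2 - 1) * (m + 2 - 2) ≠ 0 := mul_ne_zero (by omega) (by omega)
    omega
  obtain ⟨κ, C₁, h1⟩ := twists_of_arch (n := m + 1) K (by omega) hg1 hcard (arch (m + 2) hD)
    (max δ 0) (le_max_right _ _) (max_lt hδ one_pos)
  refine ⟨κ, max C₁ 0, fun H hH => ?_⟩
  have hH0 : (0 : ℝ) < H := by exact_mod_cast hH
  have hHR : (1 : ℝ) ≤ H := by exact_mod_cast hH
  have h2 := h1 H hH ((Fintype.piFinset fun _ : Idx (m + 2) => box K H).filter fun c =>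
    ¬ FreyTwists g κ (max C₁ 0) c) fun c hc => by
    rw [Finset.mem_filter, Fintype.mem_piFinset] at hc
    refine ⟨hc.1, fun h => hc.2 ⟨h.1, fun e he => (h.2 e he).trans ?_⟩⟩
    have := le_max_left C₁ 0
    linarith
  refine h2.trans ?_
  have hall : ((Fintype.piFinset fun _ : Idx (m + 2) => box K H).card : ℝ) =
      ((2 * H + 1 : ℝ) ^ Module.finrank ℚ K) ^ Fintype.card (Idx (m + 2)) := by
    rw [Fintype.card_piFinset]
    simp only [card_box, Finset.prod_const, Finset.card_univ]
    push_cast
    rfl
  rw [hall]
  have h3 : (H : ℝ) ^ ((Fintype.card (Idx (m + 2)) * Module.finrank ℚ K : ℕ) - max δ 0 : ℝ) ≤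
      (H : ℝ) ^ ((Fintype.card (Idx (m + 2)) * Module.finrank ℚ K : ℕ) - δ : ℝ) :=
    Real.rpow_le_rpow_of_exponent_le hHR (by linarith [le_max_left δ 0])
  have h4 : 0 ≤ (H : ℝ) ^ ((Fintype.card (Idx (m + 2)) * Module.finrank ℚ K : ℕ) - δ : ℝ) := by
    positivity
  have h5 : C₁ * (H : ℝ) ^ ((Fintype.card (Idx (m + 2)) * Module.finrank ℚ K : ℕ) -
      max δ 0 : ℝ) ≤
      max C₁ 0 * (H : ℝ) ^ ((Fintype.card (Idx (m + 2)) * Module.finrank ℚ K : ℕ) - δ : ℝ) :=
    (mul_le_mul_of_nonneg_right (le_max_left _ _) (by positivity)).trans
      (mul_le_mul_of_nonneg_left h3 (le_max_right _ _))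
  refine h5.trans ?_
  rw [sub_eq_add_neg, Real.rpow_add hH0, mul_comm ((H : ℝ) ^ _), ← mul_assoc]
  have hδ : 0 ≤ (H : ℝ) ^ (-δ) := by positivity
  refine mul_le_mul_of_nonneg_left ?_ (mul_nonneg (le_max_right _ _) hδ)
  rw [Real.rpow_natCast, ← pow_mul, mul_comm (Module.finrank ℚ K)]
  exact pow_le_pow_left₀ hH0.le (by linarith) _

end Pool.Agent.Results.MP_6babc4_nt.AbelianThreefolds
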