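import Pool.Agent.K4H5.EF.Main

/-!
# Frey's height conjecture for almost all members of every family of hyperelliptic curves with a
# nodal member, and for all their quadratic twists

Frey asks for constants `κ`, `c`, depending only on the number field `K` and on `g`, such that
`h_F(A) ≤ κ log N_A + c` for all abelian varieties `A` over `K` of dimension `g`.

Let `g ≥ 1` and let `y² = F(t, x)`, where `F` is a polynomial in `x` of degree at most `2 g + 2`
whose coefficients are polynomials in `t = (t_1, ..., t_n)` over the integers of `K`, be ANY family
of hyperelliptic curves of genus `g` over the affine space which has over the algebraic closure a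
smooth member (`b₁`) and a singular semistable member (`b₀`: the binary form `F(b₀, x)` of degree
`2 g + 2` has a double zero but no triple zero; any number of nodes is allowed). Then for 100 % of
the integral points `b`, with a power saving in the number of exceptions, the curve
`y² = F(b, x)` has genus `g`, and the inequality of Frey holds, with the same constants, for the
Jacobians of ALL its quadratic twists `y² = e F(b, x)`, `e ∈ K^×`.

Examples are all one-parameter families of hyperelliptic curves which degenerate somewhere to a
nodal curve `y² = F(b₀, x)`, the family of all hyperelliptic curves of genus `g`, the families with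
prescribed Weierstrass points or with prescribed rational points, and the families over rational
moduli spaces of curves of genus two whose Jacobians have a prescribed torsion or real
multiplication.

* `height g F e` is the Arakelov degree of the Weierstrass lattice: the metric is the `L²` metric
  (`vol g F` is, up to a constant which depends on `g` only, the square of the `L²` norm of
  `∧_{i<g} x^i dx/y` on the Jacobian of `y² = F(x)`), and the finite part is the exact correction
  for the twist. The differentials of the Néron model are contained in the Weierstrass lattice, so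
  `h_F(J) ≤ height g F e + c(g)`.
* `cond g F e` is defined at the places `v` not dividing `2` where the form `F` modulo `v` has no
  triple zero. There the model `y² = F(x)` has a smooth or nodal fibre, so its Jacobian has
  good or semistable reduction, and in the nodal case the toric rank is at least one (it is the
  number of nodes, or `g` if there are `g + 1` nodes). If the order of `e` is odd, the inertia group
  acts on the Tate module of the twist by a unipotent representation times a ramified tame quadratic
  character, so that the exponent of the conductor is `2 g`; and if it is even, the exponent is the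
  toric rank. So `cond g F e` divides the conductor `N_J`.
-/

set_option autoImplicit false

open NumberField Polynomial Pool.Agent.K4H5.EF

namespace Pool.Agent.Results.MP_6babc4_nt.EveryFamily

open Pool.Agent.K4H5.HF (zeros box card_box)

open Classical in
/-- Let `y² = F(t, x)` be a family of hyperelliptic curves of genus `g` over the affine space of
dimension `n` over `K` with a smooth member and a singular semistable member over the algebraic
closure. For every `δ < 1` there are `κ` and `C` such that the inequality of Frey with the slope `κ`
and the constant `C` holds for all quadratic twists of the Jacobians of the members at the integral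
points, with the exception of a proportion `C H ^ (-δ)` of the points whose coordinates have
coordinates at most `H`. -/
theorem result (K : Type) [Field K] [NumberField K] (n g : ℕ) (hg : 1 ≤ g)
    (F : (MvPolynomial (Fin n) (𝓞 K))[X]) (hF : F.natDegree ≤ 2 * g + 2)
    (b₀ b₁ : Fin n → AlgebraicClosure K)
    (h0 : NoTriple (2 * g + 2) (geomMember F b₀) ∧
      zeros (2 * g + 2) (geomMember F b₀) < 2 * g + 2)
    (h1 : zeros (2 * g + 2) (geomMember F b₁) = 2 * g + 2) (δ : ℝ) (hδ : δ < 1) :
    ∃ κ C : ℝ, ∀ H : ℕ, 1 ≤ H →
      (((Fintype.piFinset fun _ : Fin n => box K H).filter fun b =>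
        ¬ Frey g κ C (member F b)).card : ℝ) ≤
          C * (H : ℝ) ^ (-δ) * ((Fintype.piFinset fun _ : Fin n => box K H).card : ℝ) := by
  obtain ⟨κ, C₁, hm⟩ := main K hg F hF b₀ b₁ h0.1 h0.2.ne h1
    (max δ 0) (le_max_right _ _) (max_lt hδ one_pos)
  refine ⟨κ, max C₁ 0, fun H hH => ?_⟩
  have hH0 : (0 : ℝ) < H := by exact_mod_cast hH
  have hHR : (1 : ℝ) ≤ H := by exact_mod_cast hH
  have h2 := hm H hH ((Fintype.piFinset fun _ : Fin n => box K H).filter fun b =>
    ¬ Frey g κ (max C₁ 0) (member F b)) fun b hb => by
    rw [Finset.mem_filter, Fintype.mem_piFinset] at hb
    refine ⟨hb.1, fun h => hb.2 ⟨h.1, fun e he => (h.2 e he).trans ?_⟩⟩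
    have := le_max_left C₁ 0
    linarith
  refine h2.trans ?_
  have hall : ((Fintype.piFinset fun _ : Fin n => box K H).card : ℝ) =
      ((2 * H + 1 : ℝ) ^ Module.finrank ℚ K) ^ Fintype.card (Fin n) := by
    rw [Fintype.card_piFinset]
    simp only [card_box, Finset.prod_const, Finset.card_univ]
    push_cast
    rfl
  rw [hall]
  have h3 : (H : ℝ) ^ ((Fintype.card (Fin n) * Module.finrank ℚ K : ℕ) - max δ 0 : ℝ) ≤
      (H : ℝ) ^ ((Fintype.card (Fin n) * Module.finrank ℚ K : ℕ) - δ : ℝ) :=
    Real.rpow_le_rpow_of_exponent_le hHR (by linarith [le_max_left δ 0])
  have h4 : 0 ≤ (H : ℝ) ^ ((Fintype.card (Fin n) * Module.finrank ℚ K : ℕ) - δ : ℝ) := by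
    positivity
  have h5 : C₁ * (H : ℝ) ^ ((Fintype.card (Fin n) * Module.finrank ℚ K : ℕ) -
      max δ 0 : ℝ) ≤
      max C₁ 0 * (H : ℝ) ^ ((Fintype.card (Fin n) * Module.finrank ℚ K : ℕ) - δ : ℝ) :=
    (mul_le_mul_of_nonneg_right (le_max_left _ _) (by positivity)).trans
      (mul_le_mul_of_nonneg_left h3 (le_max_right _ _))
  refine h5.trans ?_
  rw [sub_eq_add_neg, Real.rpow_add hH0, mul_comm ((H : ℝ) ^ _), ← mul_assoc]
  have hδ : 0 ≤ (H : ℝ) ^ (-δ) := by positivity
  refine mul_le_mul_of_nonneg_left ?_ (mul_nonneg (le_max_right _ _) hδ)
  rw [Real.rpow_natCast, ← pow_mul, mul_comm (Module.finrank ℚ K)]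
  exact pow_le_pow_left₀ hH0.le (by linarith) _

end Pool.Agent.Results.MP_6babc4_nt.EveryFamily
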