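import Pool.Agent.K4H5.HF.Main

/-!
# Frey's height conjecture for almost all hyperelliptic Jacobians of every genus over every number
# field, and for all their quadratic twists

Frey asks for constants `κ`, `c`, depending only on the number field `K` and on `g`, such that
`h_F(A) ≤ κ log N_A + c` for all abelian varieties `A` over `K` of dimension `g`.

Let `g ≥ 1`, `N = 2 g + 1` or `2 g + 2`, and `ε > 0`. We consider all hyperelliptic curves
`y² = F(x)`, `F = ∑_{i ≤ N} c_i x^i` with integral coefficients, ordered by the size of the
coefficients (`box K H` is the set of the integers of `K` whose coordinates in the fixed integral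
basis are at most `H`). All but a power-saving proportion of them have genus `g` and satisfy the
inequality of Frey with the slope `κ = g / 2 + ε`, for the Jacobians `J` of ALL the quadratic twists
`y² = e F(x)`, `e ∈ K^×`, with one constant `C`.

* `height g F e` is the Arakelov degree of the Weierstrass lattice: the metric is the `L²` metric
  (`vol g F` is, up to a constant which depends on `g` only, the square of the `L²` norm of
  `∧_{i<g} x^i dx/y` on the Jacobian of `y² = F(x)`), and the finite part is the exact correction
  for the twist. The differentials of the Néron model are contained in the Weierstrass lattice, so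
  `h_F(J) ≤ height g F e + c(g)`.
* `cond g F e` is the part of the conductor of `J` at the places `v` not dividing `2` where `F` has
  at least `2 g + 1` different zeros on the projective line modulo `v` (good reduction, or one
  node, of `y² = F(x)`): the exponent is `2 g` if the order of `e` is odd, and it is the number of
  nodes if the order of `e` is even. So `cond g F e` divides `N_J`.
-/

set_option autoImplicit false

open NumberField Polynomial Pool.Agent.K4H5.HF

namespace Pool.Agent.Results.MP_6babc4_nt.HyperellipticJacobians

open Classical in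
/-- Frey's inequality with the slope `g / 2 + ε` holds for all quadratic twists of the Jacobians
of all hyperelliptic curves `y² = F(x)` of genus `g` over `K`, with the exception of a proportion
`C H ^ (-δ)`, `δ = ε / (5 g + 4 ε)`, of the polynomials `F` of degree at most `N` whose
coefficients have coordinates at most `H`. -/
theorem result (K : Type) [Field K] [NumberField K] (g N : ℕ) (hg : 1 ≤ g)
    (hN : N = 2 * g + 1 ∨ N = 2 * g + 2) (ε : ℝ) (hε : 0 < ε) :
    ∃ C : ℝ, ∀ H : ℕ, 1 ≤ H →
      (((Fintype.piFinset fun _ : Fin (N + 1) => box K H).filter fun c =>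
        ¬ Frey g (g / 2 + ε) C (∑ i : Fin (N + 1), Polynomial.C (c i) * X ^ (i : ℕ))).card : ℝ) ≤
          C * (H : ℝ) ^ (-(ε / (5 * g + 4 * ε)) : ℝ) *
            ((Fintype.piFinset fun _ : Fin (N + 1) => box K H).card : ℝ) := by
  obtain ⟨m, rfl⟩ : ∃ m, N = m + 1 := ⟨N - 1, by omega⟩
  have hm : m = 2 * g ∨ m = 2 * g + 1 := by omega
  obtain ⟨C₁, h1⟩ := frey_box K g m hg hm ε hε
  refine ⟨max C₁ 0, fun H hH => ?_⟩
  have hH0 : (0 : ℝ) < H := by exact_mod_cast hH
  have h2 := h1 H hH ((Fintype.piFinset fun _ : Fin (m + 1 + 1) => box K H).filter fun c =>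
    ¬ Frey g (g / 2 + ε) (max C₁ 0) (∑ i : Fin (m + 1 + 1), Polynomial.C (c i) * X ^ (i : ℕ)))
      fun c hc => by
    rw [Finset.mem_filter, Fintype.mem_piFinset] at hc
    have hc2 : ¬ Frey g (g / 2 + ε) (max C₁ 0) (fp c) := hc.2
    refine ⟨hc.1, fun h => hc2 ⟨h.1, fun e he => (h.2 e he).trans ?_⟩⟩
    have := le_max_left C₁ 0
    linarith
  refine h2.trans ?_
  have hall : ((Fintype.piFinset fun _ : Fin (m + 1 + 1) => box K H).card : ℝ) =
      ((2 * H + 1 : ℝ) ^ Module.finrank ℚ K) ^ (m + 1 + 1) := by
    rw [Fintype.card_piFinset]
    simp only [card_box, Finset.prod_const, Finset.card_univ, Fintype.card_fin]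
    push_cast
    rfl
  rw [hall, sub_eq_add_neg, Real.rpow_add hH0, mul_comm ((H : ℝ) ^ _), ← mul_assoc]
  have hδ : 0 ≤ (H : ℝ) ^ (-(ε / (5 * g + 4 * ε)) : ℝ) := by positivity
  refine mul_le_mul (mul_le_mul_of_nonneg_right (le_max_left _ _) hδ) ?_ (by positivity)
    (mul_nonneg (le_max_right _ _) hδ)
  rw [Real.rpow_natCast, ← pow_mul, mul_comm (Module.finrank ℚ K)]
  exact pow_le_pow_left₀ hH0.le (by linarith) _

end Pool.Agent.Results.MP_6babc4_nt.HyperellipticJacobians
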