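import Pool.Agent.K4H5.PC.Fin

/-!
# Frey's height conjecture for almost all smooth plane curves of every degree over every number field

Frey asks for constants `κ`, `c`, depending only on the number field `K` and on `g`, such that
`h_F(A) ≤ κ log N_A + c` for all abelian varieties `A` over `K` of dimension `g`.

Let `D ≥ 3` and `g = (D - 1)(D - 2) / 2`. We consider all plane curves of degree `D` over `K`, with
the affine equation `f(x, y) = ∑_{i + j ≤ D} c_{ij} x^i y^j = 0` with integral coefficients, ordered
by the size of the coefficients (`box K H` is the set of the integers of `K` whose coordinates in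
the fixed integral basis are at most `H`). All but a power-saving proportion of them are smooth, of
genus `g`, and their Jacobians `J` satisfy the inequality of Frey with any slope `κ > g`. For
`D = 4` these are all non-hyperelliptic curves of genus `3`.

* `height c` is the Arakelov degree of the lattice `∧_{i + j ≤ D - 3} x^i y^j dx / f_y`: the metric
  is the `L²` metric (`vol` is, up to a constant which depends on `D` only, the square of the `L²`
  norm of this form on the Jacobian). The differentials of the Néron model are contained in
  `H⁰(W, ω) = ⊕ 𝓞 x^i y^j dx / f_y` for the plane model `W` (by the map from its `Pic⁰` to the Néron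
  model), so `h_F(J) ≤ height c + c(D)`.
* `cond c` is the product of the norms of the places `v` not dividing `2` where the projective
  curve has exactly one singular point modulo `v`, an ordinary double point (`OneNode`). The plane
  model is semistable with an irreducible special fibre there, `J` has toric rank one and the
  exponent of its conductor is `1`. So `cond c` divides `N_J`.
-/

set_option autoImplicit false

open NumberField Polynomial Pool.Agent.K4H5.PC

namespace Pool.Agent.Results.MP_6babc4_nt.PlaneCurves

open Pool.Agent.K4H5.HF (box card_box)

open Classical in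
/-- Frey's inequality with the slope `κ > g` holds for the Jacobians of all plane curves of degree
`D` over `K`, with the exception of a proportion `C H ^ (-δ)`, for every
`δ < (κ - g) / (κ + (D - 2) g)`, of the polynomials whose coefficients have coordinates at
most `H`. -/
theorem result (K : Type) [Field K] [NumberField K] (D g : ℕ) (hD : 3 ≤ D)
    (hg : 2 * g = (D - 1) * (D - 2)) (κ δ : ℝ) (hκ : (g : ℝ) < κ)
    (hδ : δ * (κ + (D - 2) * g) < κ - g) :
    ∃ C : ℝ, ∀ H : ℕ, 1 ≤ H →
      (((Fintype.piFinset fun _ : Idx D => box K H).filter fun c => ¬ Frey κ C c).card : ℝ) ≤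
          C * (H : ℝ) ^ (-δ) * ((Fintype.piFinset fun _ : Idx D => box K H).card : ℝ) := by
  obtain ⟨C₁, h1⟩ := frey_box K D g hD hg κ δ hκ hδ
  refine ⟨max C₁ 0, fun H hH => ?_⟩
  have hH0 : (0 : ℝ) < H := by exact_mod_cast hH
  have h2 := h1 H hH ((Fintype.piFinset fun _ : Idx D => box K H).filter fun c =>
    ¬ Frey κ (max C₁ 0) c) fun c hc => by
    rw [Finset.mem_filter, Fintype.mem_piFinset] at hc
    refine ⟨hc.1, fun h => hc.2 ⟨h.1, h.2.trans ?_⟩⟩
    have := le_max_left C₁ 0
    linarith
  refine h2.trans ?_
  have hall : ((Fintype.piFinset fun _ : Idx D => box K H).card : ℝ) =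
      ((2 * H + 1 : ℝ) ^ Module.finrank ℚ K) ^ Fintype.card (Idx D) := by
    rw [Fintype.card_piFinset]
    simp only [card_box, Finset.prod_const, Finset.card_univ]
    push_cast
    rfl
  rw [hall, sub_eq_add_neg, Real.rpow_add hH0, mul_comm ((H : ℝ) ^ _), ← mul_assoc]
  have hδ : 0 ≤ (H : ℝ) ^ (-δ) := by positivity
  refine mul_le_mul (mul_le_mul_of_nonneg_right (le_max_left _ _) hδ) ?_ (by positivity)
    (mul_nonneg (le_max_right _ _) hδ)
  rw [Real.rpow_natCast, ← pow_mul, mul_comm (Module.finrank ℚ K)]
  exact pow_le_pow_left₀ hH0.le (by linarith) _

end Pool.Agent.Results.MP_6babc4_nt.PlaneCurves
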